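import Pool.Agent.Q193.LT.Origin

/-!
# Galois representations of Bianchi newforms in the cohomology of cubics `T(x, y, z) = 1`

Let `K` be an imaginary quadratic field and `p` a prime number. Let `A` be the abelian category of the
continuous finite-dimensional representations of `G_K` over `ℚ̄_p`, with the Tate twists `N ↦ N(j)`. For a
separated scheme `X` of finite type over `K` let `D.H i X` be the representation
`H^i_c(X_{K̄}, ℚ̄_p)`; for projective `X` it is `H^i(X_{K̄}, ℚ̄_p)`. The standard properties of the
cohomology with compact supports are `IsCompact D` (long exact sequences, affine bundles, products with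
`𝔾_m`) and `Generated D` (smooth projective varieties generate in each dimension, by resolution of
singularities).

`Occurs D ρ N` says that `ρ` is isomorphic to a subquotient of some Tate twist of `N`. Let `ρ` be an
irreducible representation, for example the representation `ρ_{f,p}` of a Bianchi newform `f`. So `ρ`
arises from étale cohomology, in the sense of question Q1, if and only if `Occurs D ρ (D.H i Y)` for some
smooth projective variety `Y` over `K` and some `i`.

For a trilinear form `T(x, y, z) = ∑ t_{ijl} x_i y_j z_l` with coefficients in `K`, in any numbers of
variables `x_1, …, x_a`, `y_1, …, y_b`, `z_1, …, z_c`, the affine cubic hypersurface `T(x, y, z) = 1` is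
smooth over `K`.

**Theorem.** (1) An irreducible representation `ρ` (for example `ρ = ρ_{f,p}`) arises from étale cohomology
if and only if it is a subquotient of a Tate twist of `H^i_c(T = 1)` for some `i` and some affine cubic
hypersurface `T(x, y, z) = 1` over `K`, or of the cohomology of the point `Spec K`.

(2) For all `n`, it arises from a smooth projective variety of dimension at most `n` if and only if `T` may
be chosen such that one of the three blocks of variables has at most `n + 2` variables (the other two
blocks are arbitrary), or `ρ` occurs in the cohomology of the point. For example, `ρ_{f,p}` arises from a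
curve, or from an abelian variety, if and only if it is a subquotient of a Tate twist of `H^i_c(T = 1)` for
some `T` with a block of three variables (`n = 1`).
-/

set_option autoImplicit false

open CategoryTheory CategoryTheory.Limits AlgebraicGeometry Pool.Agent.Y116.UV Pool.Agent.Z125.UN
  Pool.Agent.Q193.LT

universe v u

namespace Pool.Agent.Results.MP_2e0e07_nt.CubicOrigin

/-- **Galois representations of Bianchi newforms and cubic hypersurfaces.** See the explanations
above. -/
theorem result {K : Type} [Field K] [NumberField K] (_hK : Module.finrank ℚ K = 2) {A : Type u}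
    [Category.{v} A] [Abelian A] {D : CompactData K A} (hD : IsCompact D) (hg : Generated D)
    (ρ : A) [Simple ρ] :
    ((∃ Y : Sch K, SmoothProj Y ∧ ∃ i, Occurs D ρ (D.H i Y)) ↔
      (∃ i, Occurs D ρ (D.H i (aff K K))) ∨
      ∃ (a b c : ℕ) (T : Fin a → Fin b → Fin c → K), ∃ i, Occurs D ρ (D.H i (hypS T))) ∧
    ∀ n : ℕ, (∃ Y : Sch K, SmoothProj Y ∧ topologicalKrullDim Y.left ≤ n ∧
        ∃ i, Occurs D ρ (D.H i Y)) ↔
      (∃ i, Occurs D ρ (D.H i (aff K K))) ∨
      ∃ (a b c : ℕ) (T : Fin a → Fin b → Fin c → K), (a ≤ n + 2 ∨ b ≤ n + 2 ∨ c ≤ n + 2) ∧
        ∃ i, Occurs D ρ (D.H i (hypS T)) :=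
  ⟨origin_proj_all hD ρ hg, fun n => origin_proj hD ρ hg n⟩

end Pool.Agent.Results.MP_2e0e07_nt.CubicOrigin
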