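import Pool.Agent.Q170.GO.Occ

/-!
# The geometric origin of the Galois representations of Bianchi newforms, and hypergraphs

Let `K` be a number field (for example the imaginary quadratic field of the question), `p` a prime number
and `G_K` the absolute Galois group. Let `ρ` be an irreducible representation of `G_K` over `ℚ̄_p` which is not
a power of the cyclotomic character, for example one of the two-dimensional representations `ρ_{f,p}` of the
Bianchi newforms `f` over `K`.

`D.H j X` is the cohomology with compact supports `H^j_c(X ⊗ K̄, ℚ̄_p)` of the schemes `X` over `K` and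
`D.G w j X` its part of weight `w`; `Q.H j X` and `Q.G w j X` are the same for the schemes `X` over `ℚ`, with
the action of the subgroup `G_K` of `G_ℚ`.

**Theorem.** The following are equivalent:

1. `ρ` arises from étale cohomology: it is a subquotient of a Tate twist of `H^i(Y)` for a smooth projective
   scheme `Y` over `K`;
2. `ρ` is a subquotient of a Tate twist of `H^i_c(X)` for a separated scheme `X` of finite type over `K`;
3. `ρ` is a subquotient of a Tate twist of the part of weight `j - 1` of `H^j_c(T = 1)` for a smooth affine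
   cubic hypersurface `T(x, y, z) = 1`, `T` a trilinear form over `K`;
4. `ρ` is a subquotient of a Tate twist of the part of weight `j - 1` of `H^j_c(X_H)` for one of the
   hypersurfaces `X_H : ∑_{(i, j, l) ∈ H} x_i y_j z_l = 1`, where `H` is a finite set of triples.

Moreover, for every `n`, the representation `ρ` occurs in the cohomology of a smooth projective scheme of
dimension at most `n` if and only if it occurs in `H^i_c(T = 1)` for a trilinear form `T` over `K` with a
block of at most `n + 2` variables. (For `n = 1`, the case of the abelian varieties, which is expected for the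
Bianchi newforms of weight two: a block of at most three variables.)
-/

set_option autoImplicit false

open CategoryTheory CategoryTheory.Limits AlgebraicGeometry Pool.Agent.Y116.UV Pool.Agent.Z125.UN
  Pool.Agent.Q193.LT Pool.Agent.Q148.LI Pool.Agent.Q170.GO

namespace Pool.Agent.Results.MP_2e0e07_nt.OneWeightOfHypergraphs

/-- The coefficients `ℚ̄_p`. -/
abbrev E (p : ℕ) [Fact p.Prime] : Type := AlgebraicClosure ℚ_[p]

/-- Representations over `ℚ̄_p` of the absolute Galois group of `K`: modules over the group algebra. -/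
abbrev GRep (K : Type) [Field K] (p : ℕ) [Fact p.Prime] : Type 1 :=
  ModuleCat.{0} (MonoidAlgebra (E p) (Field.absoluteGaloisGroup K))

variable {K : Type} [Field K] [NumberField K] {p : ℕ} [Fact p.Prime]

/-- `ρ` arises from étale cohomology. -/
def Arises (D : Data K (GRep K p)) (ρ : GRep K p) : Prop :=
  ∃ Y : Sch K, SmoothProj Y ∧ ∃ i, D.Occ ρ (D.H i Y)

/-- How the cohomology of schemes over `ℚ` and over `K` are related.

* `tw`: the Tate twists are the same;
* `base`: the cohomology of a scheme `X` over `ℚ` is that of the scheme `X_K` over `K`;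
* `weil`: a smooth projective scheme `Y` over `K` is also a smooth projective scheme `Y'` over `ℚ`, and `Y` is
  an open and closed subscheme of `Y' ⊗ K`, so that `H^i(Y)` is a direct factor of `H^i(Y')`. -/
structure Compatible (Q : Data ℚ (GRep K p)) (D : Data K (GRep K p)) : Prop where
  tw : Q.tw = D.tw
  base : ∀ X : Sch ℚ, FT True X → ∃ X' : Sch K, FT True X' ∧
    ∀ w j, Nonempty (Q.G w j X ≅ D.G w j X')
  weil : ∀ Y : Sch K, SmoothProj Y → ∃ Y' : Sch ℚ, SmoothProj Y' ∧
    ∀ i, ∃ s : D.H i Y ⟶ Q.H i Y', Mono s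

/-- **One weight of hypergraphs decides.** See the explanations above. -/
theorem result {Q : Data ℚ (GRep K p)} {D : Data K (GRep K p)} {one : GRep K p}
    (hD : IsGeo D one) (hQ : IsGeo Q one) (hc : Compatible Q D)
    (ρ : GRep K p) [Simple ρ] (hρ : D.NotTate one ρ) :
    List.TFAE [
      Arises D ρ,
      ∃ X : Sch K, FT True X ∧ ∃ i, D.Occ ρ (D.H i X),
      ∃ (a b c : ℕ) (T : Fin a → Fin b → Fin c → K), ∃ j, D.Occ ρ (D.G (j - 1) j (hypS T)),
      ∃ (a b c : ℕ) (H : Finset (Fin a × Fin b × Fin c)), ∃ j,
        Q.Occ ρ (Q.G (j - 1) j (tripS ℚ H))] ∧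
    ∀ n : ℕ, D.From ρ n ↔ ∃ (a b c : ℕ) (T : Fin a → Fin b → Fin c → K),
      (a ≤ n + 2 ∨ b ≤ n + 2 ∨ c ≤ n + 2) ∧ ∃ i, D.Occ ρ (D.H i (hypS T)) := by
  have h1 := occ_iff hD hρ
  refine ⟨?_, fun n => from_iff hD hρ n⟩
  have hρ' : Q.NotTate one ρ := by
    intro a
    rw [hc.tw]
    exact hρ a
  have hocc : ∀ M : GRep K p, Q.Occ ρ M ↔ D.Occ ρ M := by
    intro M
    unfold Data.Occ
    rw [hc.tw]
  tfae_have 1 ↔ 2 := h1.out 0 1
  tfae_have 2 ↔ 3 := h1.out 1 2
  tfae_have 1 → 4 := by
    rintro ⟨Y, hY, i, hi⟩
    obtain ⟨Y', hY', hs⟩ := hc.weil Y hY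
    obtain ⟨s, hs⟩ := hs i
    exact occ_graph frac_rat hQ hρ' ⟨Y', hY', i, (hocc _).mpr (occ_mono hD.cpt s hs hi)⟩
  tfae_have 4 → 2 := by
    rintro ⟨a, b, c, H, j, h2⟩
    obtain ⟨X', hX', hiso⟩ := hc.base (tripS ℚ H) (ft_aff True)
    obtain ⟨e⟩ := hiso (j - 1) j
    obtain ⟨b', hb'⟩ := occ_iso e ((hocc _).mp h2)
    exact ⟨X', hX', j, b', (hD.graded X' hX' j b' ρ ‹_›).mpr ⟨_, hb'⟩⟩
  tfae_finish

end Pool.Agent.Results.MP_2e0e07_nt.OneWeightOfHypergraphs
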