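import Mathlib
import Pool.Agent.Q112.PI.Ext

/-!
# Bianchi newforms which are potentially invariant up to twist

`K` is an imaginary quadratic field, `W` and `H` are the absolute Galois groups of `ℚ` and `K`, `k`
is an algebraic closure of the field of `p`-adic numbers and `ρ : H → GL₂(k)` is the Galois
representation of a Bianchi newform `f` without complex multiplication. `L` is a finite Galois
extension of `ℚ` containing `K` and `A` its absolute Galois group. If over `L` the representation
`ρ` is isomorphic to a twist of each of its conjugates under `W`, then `ρ` is a twist of the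
restriction of the Galois representation of a classical newform, and it arises from étale
cohomology.
-/

set_option autoImplicit false

namespace Pool.Agent.Results.MP_2e0e07_nt.PotentiallyInvariant

open Matrix Q112PI

variable {W : Type} [Group W] {k : Type} [Field k]

/-- The published theorems. `contW`: continuous representations of `W`; `newW`: twists (by a
continuous character of `W`) of the representations `ρ_g` of the classical newforms `g` of weight at
least two; `bianchi`: the representations `ρ_{f,p}` of the Bianchi newforms `f` over `K` with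
`χ = χ^c`; `geom`: representations of `H` which arise from étale cohomology. -/
structure KnownTheorems (H : Subgroup W) (contW newW : (W →* GL (Fin 2) k) → Prop)
    (bianchi geom : (H →* GL (Fin 2) k) → Prop) : Prop where
  /-- Tate: a continuous projective representation of `W` lifts to a continuous representation
  (`H` is open in `W`, so a projective representation is continuous if it is so on `H`) -/
  tate : ∀ (P : W → GL (Fin 2) k) (ρ : H →* GL (Fin 2) k), IsProj P → bianchi ρ →
    (∀ h : H, P h = ρ h) → ∃ ρ₀ : W →* GL (Fin 2) k, contW ρ₀ ∧
      ∀ g : W, ∃ c : kˣ, (ρ₀ g : Matrix (Fin 2) (Fin 2) k) = (c : k) • (P g : Matrix _ _ k)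
  /-- Langlands: base change for the quadratic extension `K / ℚ` (after a twist the determinant of
  `ρ₀` is a power of the cyclotomic character up to finite order, and then the restriction of `ρ₀`
  belongs to a twist of `f` by a character of finite order, which is invariant under `c`) -/
  descent : ∀ (ρ₀ : W →* GL (Fin 2) k) (ρ : H →* GL (Fin 2) k), contW ρ₀ → bianchi ρ →
    IsTwist (ρ₀.comp H.subtype) ρ → newW ρ₀
  /-- Deligne: the representation of a classical newform arises from étale cohomology; its twist
  `ρ_{f,p}` is a twist by a power of the cyclotomic character and a character of finite order, so it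
  arises from étale cohomology as well -/
  deligne : ∀ (ρ₀ : W →* GL (Fin 2) k) (ρ : H →* GL (Fin 2) k), newW ρ₀ → bianchi ρ →
    IsTwist (ρ₀.comp H.subtype) ρ → geom ρ

theorem result [IsAlgClosed k] {H A : Subgroup W} [A.Normal] (hAH : A ≤ H)
    {contW newW : (W →* GL (Fin 2) k) → Prop} {bianchi geom : (H →* GL (Fin 2) k) → Prop}
    (known : KnownTheorems H contW newW bianchi geom) (ρ : H →* GL (Fin 2) k)
    (hf : bianchi ρ)
    (hirr : Irr (ρ.comp (Subgroup.inclusion hAH)))
    (hns : NoSelfTwist (ρ.comp (Subgroup.inclusion hAH)))
    (hinv : InvUpToTwist (ρ.comp (Subgroup.inclusion hAH))) :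
    (∃ ρ₀ : W →* GL (Fin 2) k, newW ρ₀ ∧ IsTwist (ρ₀.comp H.subtype) ρ) ∧ geom ρ := by
  obtain ⟨P, hP, hPρ⟩ := exists_proj hAH ρ hirr hns hinv
  obtain ⟨ρ₀, hρ₀, hlift⟩ := known.tate P ρ hP hf hPρ
  have htw : IsTwist (ρ₀.comp H.subtype) ρ := by
    refine twist_of_lift ρ ρ₀ fun x => ?_
    obtain ⟨c, hc⟩ := hlift x
    exact ⟨c, by rw [hc, hPρ]⟩
  have h1 : newW ρ₀ := known.descent ρ₀ ρ hρ₀ hf htw
  exact ⟨⟨ρ₀, h1, htw⟩, known.deligne ρ₀ ρ h1 hf htw⟩

end Pool.Agent.Results.MP_2e0e07_nt.PotentiallyInvariant
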